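import Pool.Agent.N671.DA.Tup
import Pool.Agent.Results.MP_8da9ea_nt.AlmostAllTranslates

/-!
# The elliptico-toric inequality in bounded degree at the best approximation vectors of systems of linear forms

Let `E : y² = 4 x³ - g₂ x - g₃` be an elliptic curve with rational `g₂`, `g₃` and lattice `Λ`, and let `(z, y)` be any point
of the Lie algebra `ℂⁿ × ℂˢ` of `E^n × G_m^s`, `k = n + s ≥ 1`. Let `A_i ≠ 0`, `B_i` be integers. For an integer vector
`v = (v_1, …, v_k)` we translate `(z, y)` by logarithms of the points with the coordinates `α_i = A_i v_i + B_i`: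
`℘(p_i - z_i) = α_i` for `i = 1, …, n` and `exp(t_l - y_l) = α_(n+l)` for `l = 1, …, s`.

Let `θ` be a real matrix with `k` rows and `m` columns, `β` in `ℝ^m` and `τ > 0`. We consider the integer vectors `v` with
`‖(v θ)_j - β_j‖ ≤ c |v| ^ (-τ)` for `j = 1, …, m`, `‖x‖` the distance to the nearest integer and `|v|` the maximum norm; for
`β = 0`, `c = 1` and `τ = k / m` they include all best approximation vectors of the system of the linear forms `v θ`, by the
theorem of Minkowski. We show that for all `θ` outside a set of Hausdorff dimension at most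
`(k - 1) m + (m + k - c₀) / (1 + τ)` with some `c₀ > 0`, less than `k m` for `τ = k / m`, and so for almost all `θ`, the
following is true for all large `v` of this kind and all translates `(p, t)`: every polynomial relation of bounded degree over
number fields of bounded degree, of any height, between arbitrary constants `w_1, …, w_q` (for instance `ω₁, ω₂, η₁, η₂`), the
numbers `p_i`, `ζ(p_i)`, `t_l` and the numbers `℘(p_i)`, `℘'(p_i)`, `exp(t_l)` is an identity in the numbers `p_i`, `ζ(p_i)`,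
`t_l`. The number `c₀` does not depend on `(z, y)`, `w`, `A`, `B`, `m`, `β` and `τ`.

The best approximation vectors are a very sparse sequence, about `log T` vectors of norm at most `T`, and so this does not
follow from the size of the exceptional set, which is only smaller than `T^k` by a factor `T^c` with a small positive `c`.

The proof uses the count of the exceptional tuples of integers of the starting theorem `AlmostAllTranslates` of this problem
(`Pool.Agent.Y916.Sch.tupP`). The matrices `θ` with `‖(v θ)_j - β_j‖ ≤ c |v| ^ (-τ)` form neighbourhoods of parallel affine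
subspaces, covered by cubes of side `|v| ^ (-1 - τ)` (`Pool.Agent.N671.DA`, engine of helper671).
-/

set_option autoImplicit false

open scoped PeriodPair

namespace Pool.Agent.Results.MP_8da9ea_nt.BestApproximations

open Pool.Agent.N671.DA (Near thin_of_nat approx_vectors)
open Pool.Agent.Results.MP_8da9ea_nt.AlmostAllTranslates (zeta logarithms points FreeOverPoints IsTranslate)

/-- an integer of absolute value at most `T` is an algebraic integer of degree one with conjugates at most `T` -/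
lemma aint_int {T : ℝ} {x : ℤ} (hx : |(x : ℝ)| ≤ T) : Pool.Agent.Y916.Sl.AInt 1 T (x : ℂ) := by
  refine ⟨Polynomial.X - Polynomial.C x, Polynomial.monic_X_sub_C x, Polynomial.natDegree_X_sub_C x, by simp, fun z hz => ?_⟩
  have h1 : z = (x : ℂ) := by
    simpa [sub_eq_zero] using hz
  rw [h1, Complex.norm_intCast]
  exact hx

/-- **The elliptico-toric inequality at the best approximation vectors.** Let `Λ` be a lattice with rational invariants and
`n + s ≥ 1`. For all `q`, `δ`, `d` there is `c₀ > 0` such that for all complex `w_1, …, w_q`, all `(z, y)` in `ℂⁿ × ℂˢ`, all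
integers `A_i ≠ 0`, `B_i`, all `β ∈ ℝ^m` and `τ > 0`, for all real matrices `θ` with `n + s` rows and `m` columns outside a set
of Hausdorff dimension at most `(n + s - 1) m + (m + n + s - c₀) / (1 + τ)` and all `c`, for all large integer vectors `v` with
`‖(v θ)_j - β_j‖ ≤ c |v| ^ (-τ)` for all `j`, all translates of `(z, y)` by logarithms of the point given by
`α_i = A_i v_i + B_i` are free over their points and `w`. -/
theorem result (Λ : PeriodPair) (a b : ℚ) (ha : Λ.g₂ = a) (hb : Λ.g₃ = b) (n s q : ℕ) (hns : 1 ≤ n + s) (δ d : ℕ) :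
    ∃ c₀ : ℝ, 0 < c₀ ∧ ∀ (w : Fin q → ℂ) (z : Fin n → ℂ) (y : Fin s → ℂ) (A B : Fin (n + s) → ℤ), (∀ i, A i ≠ 0) →
      ∀ (m : ℕ) (β : Fin m → ℝ) (τ : ℝ), 0 < τ →
      ∃ E : Set (Fin (n + s) × Fin m → ℝ),
        dimH E ≤ ENNReal.ofReal ((((n + s : ℕ) : ℝ) - 1) * m + (m + (((n + s : ℕ) : ℝ) - c₀)) / (1 + τ)) ∧
        ∀ θ, θ ∉ E → ∀ c : ℝ, ∃ Q : ℝ, ∀ v : Fin (n + s) → ℤ, Q ≤ ‖v‖ → Near θ β v (c * ‖v‖ ^ (-τ)) →
          ∀ (p : Fin n → ℂ) (t : Fin s → ℂ), IsTranslate Λ z y (fun i => ((A i * v i + B i : ℤ) : ℂ)) p t →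
            FreeOverPoints Λ δ d w p t := by
  obtain ⟨c₁, hc₁, C, hC, h⟩ := Pool.Agent.Y916.Sch.tupP Λ a b ha hb n s q 1 δ d le_rfl
  have hMm : Pool.Agent.Y916.Sl.Mm 1 = 1 := by rw [Pool.Agent.Y916.Sl.Mm_eq]
  rw [hMm, mul_one] at h
  have hk1 : (1 : ℝ) ≤ ((n + s : ℕ) : ℝ) := by exact_mod_cast hns
  obtain ⟨c₀, hc₀⟩ : ∃ c₀ : ℝ, c₀ = min c₁ 1 := ⟨_, rfl⟩
  have hc0 : 0 < c₀ := by rw [hc₀]; exact lt_min hc₁ one_pos
  have hc01 : c₀ ≤ 1 := by rw [hc₀]; exact min_le_right _ _
  have hc0c : c₀ ≤ c₁ := by rw [hc₀]; exact min_le_left _ _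
  refine ⟨c₀, hc0, fun w z y A B hA m β τ hτ => ?_⟩
  obtain ⟨R, hR⟩ : ∃ R : ℕ, R = 1 + ∑ i, ((A i).natAbs + (B i).natAbs) := ⟨_, rfl⟩
  have hR1 : 1 ≤ R := by rw [hR]; omega
  obtain ⟨φ, hφ⟩ : ∃ φ : (Fin (n + s) → ℤ) → (Fin (n + s) → ℂ), φ = fun v i => ((A i * v i + B i : ℤ) : ℂ) := ⟨_, rfl⟩
  have hinj : Function.Injective φ := by
    intro v v' hv
    funext i
    have h1 : ((A i * v i + B i : ℤ) : ℂ) = ((A i * v' i + B i : ℤ) : ℂ) := by
      have := congrFun hv i
      rw [hφ] at this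
      exact this
    have h2 : A i * v i + B i = A i * v' i + B i := by exact_mod_cast h1
    have h3 : A i * (v i - v' i) = 0 := by linarith
    rcases mul_eq_zero.1 h3 with h4 | h4
    · exact absurd h4 (hA i)
    · exact sub_eq_zero.1 h4
  obtain ⟨W, hW⟩ : ∃ W : Set (Fin (n + s) → ℤ),
      W = {v | ¬ ∀ (p : Fin n → ℂ) (t : Fin s → ℂ), IsTranslate Λ z y (φ v) p t → FreeOverPoints Λ δ d w p t} := ⟨_, rfl⟩
  have hT : Pool.Agent.N671.DA.Thin W (((n + s : ℕ) : ℝ) - c₀) := by
    refine thin_of_nat (C₀ := C * (R : ℝ) ^ (((n + s : ℕ) : ℝ) - c₀)) (by linarith) fun X hX => ?_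
    have hX0 : (0 : ℝ) ≤ X := Nat.cast_nonneg X
    have hR0 : (0 : ℝ) ≤ R := Nat.cast_nonneg R
    have hRX : 1 ≤ R * X := Nat.mul_pos hR1 hX
    obtain ⟨hf, hle⟩ := h w z y (R * X) hRX
    have hRX1 : (1 : ℝ) ≤ ((R * X : ℕ) : ℝ) := by exact_mod_cast hRX
    have hle2 : C * ((R * X : ℕ) : ℝ) ^ (((n + s : ℕ) : ℝ) - c₁) ≤ C * ((R * X : ℕ) : ℝ) ^ (((n + s : ℕ) : ℝ) - c₀) :=
      mul_le_mul_of_nonneg_left (Real.rpow_le_rpow_of_exponent_le hRX1 (by linarith)) hC
    have e1 : C * ((R * X : ℕ) : ℝ) ^ (((n + s : ℕ) : ℝ) - c₀) =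
        C * (R : ℝ) ^ (((n + s : ℕ) : ℝ) - c₀) * (X : ℝ) ^ (((n + s : ℕ) : ℝ) - c₀) := by
      rw [Nat.cast_mul, Real.mul_rpow hR0 hX0, mul_assoc]
    rw [← e1]
    refine le_trans (Nat.cast_le.2 ?_) (hle.trans hle2)
    refine Set.ncard_le_ncard_of_injOn φ ?_ hinj.injOn hf
    rintro v ⟨hv1, hv2⟩
    refine ⟨fun i => ?_, ?_⟩
    · rw [hφ]
      refine aint_int ?_
      have e2 : (((A i).natAbs + (B i).natAbs : ℕ) : ℝ) ≤ R := by
        rw [hR]
        have := Finset.single_le_sum (f := fun i => (A i).natAbs + (B i).natAbs) (fun i _ => Nat.zero_le _) (Finset.mem_univ i)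
        exact_mod_cast this.trans (Nat.le_add_left _ _)
      have e3 : (1 : ℝ) ≤ X := by exact_mod_cast hX
      have e4 : |(v i : ℝ)| ≤ X := by exact_mod_cast hv1 i
      have e5 : |((A i * v i + B i : ℤ) : ℝ)| ≤ |((A i : ℤ) : ℝ)| * |(v i : ℝ)| + |((B i : ℤ) : ℝ)| := by
        push_cast
        refine (abs_add_le _ _).trans ?_
        rw [abs_mul]
      have e6 : (((A i).natAbs + (B i).natAbs : ℕ) : ℝ) = |((A i : ℤ) : ℝ)| + |((B i : ℤ) : ℝ)| := by
        push_cast
        rw [Nat.cast_natAbs, Nat.cast_natAbs, Int.cast_abs, Int.cast_abs]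
      rw [e6] at e2
      have e7 := abs_nonneg ((A i : ℤ) : ℝ)
      have e8 := abs_nonneg ((B i : ℤ) : ℝ)
      push_cast
      push_cast at e5
      nlinarith [mul_le_mul_of_nonneg_left e4 e7, mul_le_mul_of_nonneg_left e3 e8, mul_le_mul_of_nonneg_right e2 hX0]
    · rw [hW] at hv2
      simp only [not_forall, Set.mem_ofPred_eq] at hv2
      obtain ⟨p, t, hu, hF'⟩ := hv2
      exact ⟨p, t, hu.1, hu.2, hF'⟩
  obtain ⟨E, hE, hE2⟩ := approx_vectors hns W (s := ((n + s : ℕ) : ℝ) - c₀) (by linarith) hT β hτ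
  refine ⟨E, hE, fun θ hθ c => ?_⟩
  obtain ⟨Q, hQ⟩ := hE2 θ hθ c
  refine ⟨Q, fun v hv h1 => ?_⟩
  have h2 := hQ v hv h1
  rw [hW, hφ] at h2
  simpa only [Set.mem_ofPred_eq, not_not] using h2

end Pool.Agent.Results.MP_8da9ea_nt.BestApproximations
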