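import Pool.Agent.N113.SA.Lat

/-!
# The elliptico-toric conjecture is equivalent to a statement on linear relations

Let `Ω = ℤ ω₁ + ℤ ω₂` be a lattice, `k = ℚ(ω₂/ω₁)` if `ω₂/ω₁` is quadratic and `k = ℚ` otherwise, `t_1, …, t_s`
complex numbers such that `2πi, t_1, …, t_s` are linearly independent over `ℚ`, and `p_1, …, p_n` complex
numbers which are linearly independent over `k` modulo `Ω ⊗ ℚ = k ω₁ + k ω₂`. The conjecture (in the form
to which the problem file reduces it) says that the numbers `t_l`, `exp (t_l)`, `g₂`, `g₃`, `ω₁`, `ω₂`, `η₁`,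
`η₂`, `p_i`, `℘(p_i)`, `ζ(p_i)` generate a field of transcendence degree at least `s + 4 / [k:ℚ] + 2 n`.

We consider the additive (that is, `ℚ`-linear) maps `D : ℂ → ℂ` which vanish at the algebraic numbers and
which, **on the `k`-span `V` of `ω₁, ω₂, p_1, …, p_n` only**, are `k`-linear and satisfy the rule of
differentiation for inverses, `D (1 / v) = - D (v) / v²` for `v ∈ V`. Nothing is required of products, and
nothing at all of the numbers `t_l`, `exp (t_l)`, `g₂`, `g₃`, `η₁`, `η₂`, `℘(p_i)`, `ζ(p_i)`: apart from the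
`k`-linearity, the only relations between the coordinates which `D` takes into account are the
`ℚ`-linear relations between them and the numbers `1 / v`, `v ∈ V`, modulo algebraic numbers. The values of
these maps at the coordinates form a space of vectors; it contains the vectors given by the
derivations of `ℂ`, its dimension is at least the transcendence degree, and it can be much larger.

We prove: the conjecture holds if and only if this space has dimension at least `s + 4 / [k:ℚ] + 2 n` for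
all lattices, all `t` and all `p`. Moreover, without any hypothesis, for every lattice, every finite
family `t` of complex numbers, every tuple `p` and every integer `d`: all the tuples `y` of independent
numbers containing `p` satisfy the bound `2 |y| + d` for the transcendence degree if and only if all of
them satisfy this bound for the dimension.

The proof is the one of `MP_2ad15a_nt.InversesSuffice`: numbers `y` for which `D y` is determined by the
coordinates can be added to the tuple (or are in the span `V`) at no cost, and `x² = - 1 / w - x` for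
`w = 1 / (x + 1) - 1 / x`.
-/

set_option autoImplicit false

open Pool.Agent.N113

namespace Pool.Agent.Results.MP_8da9ea_nt.InversesSuffice

/-- The point `x₁ ω₁ + x₂ ω₂` of the lattice. -/
noncomputable def lattice (ω₁ ω₂ : ℂ) (x : ℤ × ℤ) : ℂ := (x.1 : ℂ) * ω₁ + (x.2 : ℂ) * ω₂

/-- The Weierstrass `℘`-function. -/
noncomputable def wp (ω₁ ω₂ z : ℂ) : ℂ := 1 / z ^ 2 + ∑' x : ℤ × ℤ,
  (if x = 0 then (0 : ℂ) else (1 / (z - lattice ω₁ ω₂ x) ^ 2 - 1 / (lattice ω₁ ω₂ x) ^ 2))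

/-- The Weierstrass zeta function. -/
noncomputable def zeta (ω₁ ω₂ z : ℂ) : ℂ := 1 / z + ∑' x : ℤ × ℤ,
  (if x = 0 then (0 : ℂ) else
    (1 / (z - lattice ω₁ ω₂ x) + 1 / lattice ω₁ ω₂ x + z / (lattice ω₁ ω₂ x) ^ 2))

/-- The invariants `g₂`, `g₃`, the periods `ω₁`, `ω₂` and the quasi-periods `η₁`, `η₂`. -/
noncomputable def invariants (ω₁ ω₂ : ℂ) : Fin 6 → ℂ :=
  ![60 * ∑' x : ℤ × ℤ, (if x = 0 then (0 : ℂ) else 1 / (lattice ω₁ ω₂ x) ^ 4),
    140 * ∑' x : ℤ × ℤ, (if x = 0 then (0 : ℂ) else 1 / (lattice ω₁ ω₂ x) ^ 6),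
    ω₁, ω₂, 2 * zeta ω₁ ω₂ (ω₁ / 2), 2 * zeta ω₁ ω₂ (ω₂ / 2)]

/-- The number `τ` is quadratic. -/
def Quadratic (τ : ℂ) : Prop := ∃ a b c : ℤ, a ≠ 0 ∧ (a : ℂ) * τ ^ 2 + b * τ + c = 0

open Classical in
/-- The field `k`: `ℚ(τ)` if `τ` is quadratic, and `ℚ` otherwise. -/
noncomputable def endomorphismField (τ : ℂ) : Subfield ℂ :=
  if Quadratic τ then Subfield.closure {τ} else ⊥

open Classical in
/-- The number `4 / [k:ℚ]`. -/
noncomputable def periodTerm (τ : ℂ) : ℕ := if Quadratic τ then 2 else 4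

/-- Numbers which are linearly independent over `k` modulo `k ω₁ + k ω₂`. -/
def General (ω₁ ω₂ : ℂ) {κ : Type} [Fintype κ] (p : κ → ℂ) : Prop :=
  ∀ c : κ → ℂ, (∀ i, c i ∈ endomorphismField (ω₂ / ω₁)) →
    ∑ i, c i * p i ∈ Submodule.span (endomorphismField (ω₂ / ω₁)) {ω₁, ω₂} → ∀ i, c i = 0

/-- The coordinates: `t_l`, `exp (t_l)`; `g₂`, `g₃`, `ω₁`, `ω₂`, `η₁`, `η₂`; `p_i`, `℘(p_i)`, `ζ(p_i)`. -/
noncomputable def coordinate (ω₁ ω₂ : ℂ) {σ κ : Type} (t : σ → ℂ) (p : κ → ℂ) :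
    (σ × Fin 2 ⊕ Fin 6) ⊕ κ × Fin 3 → ℂ :=
  Sum.elim (Sum.elim (fun x => ![t x.1, Complex.exp (t x.1)] x.2) (invariants ω₁ ω₂))
    fun x => ![p x.1, wp ω₁ ω₂ (p x.1), zeta ω₁ ω₂ (p x.1)] x.2

/-- The elliptico-toric conjecture. -/
def Conjecture : Prop := ∀ ω₁ ω₂ : ℂ, (ω₂ / ω₁).im ≠ 0 →
  ∀ (s n : ℕ) (t : Fin s → ℂ) (p : Fin n → ℂ),
    LinearIndependent ℚ (fun o : Option (Fin s) => o.elim (2 * (Real.pi : ℂ) * Complex.I) t) →
    General ω₁ ω₂ p →
    ∃ f : Fin (s + periodTerm (ω₂ / ω₁) + 2 * n) → (Fin s × Fin 2 ⊕ Fin 6) ⊕ Fin n × Fin 3,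
      AlgebraicIndependent ℚ fun m => coordinate ω₁ ω₂ t p (f m)

/-- The additive map `D` vanishes at the algebraic numbers; on the `k`-span of `ω₁`, `ω₂` and the numbers
`p i` it is `k`-linear and satisfies the rule of differentiation for inverses. -/
def Admissible (ω₁ ω₂ : ℂ) {κ : Type} (p : κ → ℂ) (D : ℂ →ₗ[ℚ] ℂ) : Prop :=
  (∀ a : ℂ, IsAlgebraic ℚ a → D a = 0) ∧
    ∀ v ∈ Submodule.span (endomorphismField (ω₂ / ω₁)) ({ω₁, ω₂} ∪ Set.range p),
      (∀ a ∈ endomorphismField (ω₂ / ω₁), D (a * v) = a * D v) ∧ D v⁻¹ = -D v / v ^ 2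

/-- The vectors of the values of the admissible maps at the coordinates. -/
noncomputable def space (ω₁ ω₂ : ℂ) {σ κ : Type} (t : σ → ℂ) (p : κ → ℂ) :
    Submodule ℂ ((σ × Fin 2 ⊕ Fin 6) ⊕ κ × Fin 3 → ℂ) where
  carrier := {v | ∃ D : ℂ →ₗ[ℚ] ℂ, Admissible ω₁ ω₂ p D ∧
    v = fun x => D (coordinate ω₁ ω₂ t p x)}
  zero_mem' := ⟨0, ⟨fun _ _ => rfl, fun v _ => ⟨fun a _ => by simp, by simp⟩⟩, rfl⟩
  add_mem' := by
    rintro _ _ ⟨D, ⟨h1, h2⟩, rfl⟩ ⟨D', ⟨h3, h4⟩, rfl⟩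
    refine ⟨D + D', ⟨fun a ha => ?_, fun v hv => ⟨fun a ha => ?_, ?_⟩⟩, rfl⟩
    · rw [LinearMap.add_apply, h1 a ha, h3 a ha, add_zero]
    · rw [LinearMap.add_apply, LinearMap.add_apply, (h2 v hv).1 a ha, (h4 v hv).1 a ha, mul_add]
    · rw [LinearMap.add_apply, LinearMap.add_apply, (h2 v hv).2, (h4 v hv).2]
      ring
  smul_mem' := by
    rintro c _ ⟨D, ⟨h1, h2⟩, rfl⟩
    refine ⟨c • D, ⟨fun a ha => ?_, fun v hv => ⟨fun a ha => ?_, ?_⟩⟩, rfl⟩
    · rw [LinearMap.smul_apply, h1 a ha, smul_zero]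
    · rw [LinearMap.smul_apply, LinearMap.smul_apply, (h2 v hv).1 a ha, smul_eq_mul, smul_eq_mul]
      ring
    · rw [LinearMap.smul_apply, LinearMap.smul_apply, (h2 v hv).2, smul_eq_mul, smul_eq_mul]
      ring

/-- the values at a point -/
noncomputable def values (ω₁ ω₂ z : ℂ) : Fin 2 → ℂ := ![wp ω₁ ω₂ z, zeta ω₁ ω₂ z]

/-- the fixed coordinates -/
noncomputable def par (ω₁ ω₂ : ℂ) {σ : Type} (t : σ → ℂ) : σ × Fin 2 ⊕ Fin 6 → ℂ :=
  Sum.elim (fun x => ![t x.1, Complex.exp (t x.1)] x.2) (invariants ω₁ ω₂)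

/-- the names of the coordinates -/
def names (σ κ : Type) :
    κ × Option (Fin 2) ⊕ (σ × Fin 2 ⊕ Fin 6) ≃ (σ × Fin 2 ⊕ Fin 6) ⊕ κ × Fin 3 :=
  (Equiv.sumComm _ _).trans
    (Equiv.sumCongr (Equiv.refl _) (Equiv.prodCongr (Equiv.refl κ) (finSuccEquiv 2).symm))

theorem names_apply (ω₁ ω₂ : ℂ) {σ κ : Type} (t : σ → ℂ) (p : κ → ℂ)
    (x : κ × Option (Fin 2) ⊕ (σ × Fin 2 ⊕ Fin 6)) :
    coordinate ω₁ ω₂ t p (names σ κ x) = SA.co (values ω₁ ω₂) (par ω₁ ω₂ t) p x := by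
  rcases x with ⟨i, _ | a⟩ | x
  · rfl
  · change ![p i, wp ω₁ ω₂ (p i), zeta ω₁ ω₂ (p i)] a.succ = values ω₁ ω₂ (p i) a
    fin_cases a <;> rfl
  · rfl

/-- the `k`-space generated by the periods -/
noncomputable abbrev WW (ω₁ ω₂ : ℂ) : Submodule (endomorphismField (ω₂ / ω₁)) ℂ :=
  Submodule.span (endomorphismField (ω₂ / ω₁)) {ω₁, ω₂}

theorem VV_eq (ω₁ ω₂ : ℂ) (A : SA.Tup) :
    SA.VV (endomorphismField (ω₂ / ω₁)) (WW ω₁ ω₂) A =
      Submodule.span (endomorphismField (ω₂ / ω₁)) ({ω₁, ω₂} ∪ Set.range A.t) :=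
  (Submodule.span_union _ _).symm

theorem finrank_space (ω₁ ω₂ : ℂ) {σ : Type} [Fintype σ] (t : σ → ℂ) (A : SA.Tup) :
    Module.finrank ℂ (space ω₁ ω₂ t A.t) = Module.finrank ℂ
      (SA.Der (values ω₁ ω₂) (par ω₁ ω₂ t)
        (SA.DD (endomorphismField (ω₂ / ω₁)) (WW ω₁ ω₂)) A) := by
  refine SA.finrank_names A (names σ A.κ) (coordinate ω₁ ω₂ t A.t) (names_apply ω₁ ω₂ t A.t) _
    fun v => ?_
  constructor
  · rintro ⟨D, ⟨h1, h2⟩, rfl⟩
    exact ⟨D, ⟨h1, fun v hv => h2 v (by rw [VV_eq] at hv; exact hv)⟩, rfl⟩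
  · rintro ⟨D, ⟨h1, h2⟩, rfl⟩
    exact ⟨D, ⟨h1, fun v hv => h2 v (by rw [VV_eq]; exact hv)⟩, rfl⟩

theorem general_iff (ω₁ ω₂ : ℂ) (A : SA.Tup) : General ω₁ ω₂ A.t ↔
    SA.Ind (endomorphismField (ω₂ / ω₁)) (WW ω₁ ω₂) Set.univ A :=
  ⟨fun h => ⟨fun _ => Set.mem_univ _, h⟩, fun h => h.2⟩

/-- **The elliptico-toric conjecture is equivalent to a statement on linear relations**; and, for a
fixed lattice and fixed numbers `t`, the smallest defects over all the extensions of a given tuple `p`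
are equal. -/
theorem result :
    (Conjecture ↔ ∀ ω₁ ω₂ : ℂ, (ω₂ / ω₁).im ≠ 0 →
      ∀ (σ κ : Type) [Fintype σ] [Fintype κ] (t : σ → ℂ) (p : κ → ℂ),
        LinearIndependent ℚ (fun o : Option σ => o.elim (2 * (Real.pi : ℂ) * Complex.I) t) →
        General ω₁ ω₂ p →
          Fintype.card σ + periodTerm (ω₂ / ω₁) + 2 * Fintype.card κ ≤
            Module.finrank ℂ (space ω₁ ω₂ t p)) ∧
    ∀ (ω₁ ω₂ : ℂ) (σ : Type) [Fintype σ] (t : σ → ℂ) (ι : Type) [Fintype ι] (p : ι → ℂ) (d : ℤ),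
      (∀ (κ : Type) [Fintype κ] (y : κ → ℂ), General ω₁ ω₂ y → Set.range p ⊆ Set.range y →
        ∃ s : Finset ((σ × Fin 2 ⊕ Fin 6) ⊕ κ × Fin 3),
          AlgebraicIndependent ℚ (fun x : s => coordinate ω₁ ω₂ t y x) ∧
            2 * (Fintype.card κ : ℤ) + d ≤ s.card) ↔
      (∀ (κ : Type) [Fintype κ] (y : κ → ℂ), General ω₁ ω₂ y → Set.range p ⊆ Set.range y →
        2 * (Fintype.card κ : ℤ) + d ≤ Module.finrank ℂ (space ω₁ ω₂ t y)) := by
  have hcard : ∀ κ : Type, ∀ _ : Fintype κ, ((Fintype.card (Fin 2) * Fintype.card κ : ℕ) : ℤ) =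
      2 * (Fintype.card κ : ℤ) := by
    intro κ _
    rw [Fintype.card_fin]
    push_cast
    ring
  have hloc : ∀ (ω₁ ω₂ : ℂ) (σ : Type) [Fintype σ] (t : σ → ℂ) (ι : Type) [Fintype ι]
      (p : ι → ℂ) (d : ℤ),
      (∀ (κ : Type) [Fintype κ] (y : κ → ℂ), General ω₁ ω₂ y → Set.range p ⊆ Set.range y →
        ∃ s : Finset ((σ × Fin 2 ⊕ Fin 6) ⊕ κ × Fin 3),
          AlgebraicIndependent ℚ (fun x : s => coordinate ω₁ ω₂ t y x) ∧
            2 * (Fintype.card κ : ℤ) + d ≤ s.card) ↔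
      (∀ (κ : Type) [Fintype κ] (y : κ → ℂ), General ω₁ ω₂ y → Set.range p ⊆ Set.range y →
        2 * (Fintype.card κ : ℤ) + d ≤ Module.finrank ℂ (space ω₁ ω₂ t y)) := by
    intro ω₁ ω₂ σ _ t ι _ z d
    have h1 := SA.lin_iff (K := endomorphismField (ω₂ / ω₁)) (W := WW ω₁ ω₂)
      (X := Set.univ) (SA.alg_endField (ω₂ / ω₁))
      (fun w _ => ⟨1, one_pos, Set.mem_univ _⟩)
      (values ω₁ ω₂) (par ω₁ ω₂ t) ⟨ι, z⟩ d
    have hsub : ∀ (κ : Type) (_ : Fintype κ) (y : κ → ℂ),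
        Set.range z ⊆ Set.range y ↔ SA.Sub ⟨ι, z⟩ ⟨κ, y⟩ := by
      intro κ _ y
      constructor
      · intro h
        choose g hg using fun i => h ⟨i, rfl⟩
        exact ⟨g, hg⟩
      · rintro ⟨g, hg⟩ _ ⟨i, rfl⟩
        exact ⟨g i, hg i⟩
    constructor
    · intro h κ _ y hy hzy
      have h2 := h1.1 (fun B hB hAB => by
        have h3 := h B.κ B.t ((general_iff ω₁ ω₂ B).2 hB) ((hsub _ _ _).2 hAB)
        rw [hcard]
        exact (SA.indep_names B.t (names σ B.κ) _ (names_apply ω₁ ω₂ t B.t) _).2 h3) ⟨κ, y⟩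
          ((general_iff ω₁ ω₂ ⟨κ, y⟩).1 hy) ((hsub _ _ _).1 hzy)
      rw [hcard] at h2
      rw [← finrank_space] at h2
      exact h2
    · intro h κ _ y hy hzy
      have h2 := h1.2 (fun B hB hAB => by
        have h3 := h B.κ B.t ((general_iff ω₁ ω₂ B).2 hB) ((hsub _ _ _).2 hAB)
        rw [hcard, ← finrank_space]
        exact h3) ⟨κ, y⟩ ((general_iff ω₁ ω₂ ⟨κ, y⟩).1 hy) ((hsub _ _ _).1 hzy)
      rw [hcard] at h2
      exact (SA.indep_names y (names σ κ) _ (names_apply ω₁ ω₂ t y) _).1 h2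
  refine ⟨?_, hloc⟩
  have hran : ∀ (κ : Type) (y : κ → ℂ), Set.range (Empty.elim : Empty → ℂ) ⊆ Set.range y := by
    rintro κ y _ ⟨i, -⟩
    exact i.elim
  constructor
  · intro h ω₁ ω₂ hω σ κ _ _ t p ht hp
    have h0 := (hloc ω₁ ω₂ σ t Empty Empty.elim
        ((Fintype.card σ + periodTerm (ω₂ / ω₁) : ℕ) : ℤ)).1 (by
      intro κ _ y hy _
      let e := Fintype.equivFin κ
      let e' := Fintype.equivFin σ
      have hy' : General ω₁ ω₂ (y ∘ e.symm) := fun c hc hs i => by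
        have h1 := hy (c ∘ e) (fun i => hc _) (by
          have h2 : ∑ i, (c ∘ e) i * y i = ∑ i, c i * (y ∘ e.symm) i := by
            rw [← Equiv.sum_comp e]
            exact Finset.sum_congr rfl fun i _ => by simp
          rw [h2]
          exact hs) (e.symm i)
        simpa using h1
      have ht' : LinearIndependent ℚ (fun o : Option (Fin (Fintype.card σ)) =>
          o.elim (2 * (Real.pi : ℂ) * Complex.I) (t ∘ e'.symm)) := by
        have h1 := ht.comp (Option.map e'.symm) (Option.map_injective e'.symm.injective)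
        have h2 : (fun o : Option (Fin (Fintype.card σ)) =>
            o.elim (2 * (Real.pi : ℂ) * Complex.I) (t ∘ e'.symm)) =
            (fun o : Option σ => o.elim (2 * (Real.pi : ℂ) * Complex.I) t) ∘
              Option.map e'.symm := by
          funext o
          rcases o with _ | i <;> rfl
        rw [h2]
        exact h1
      obtain ⟨f, hf⟩ := h ω₁ ω₂ hω _ _ _ _ ht' hy'
      let g : (Fin (Fintype.card σ) × Fin 2 ⊕ Fin 6) ⊕ Fin (Fintype.card κ) × Fin 3 →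
          (σ × Fin 2 ⊕ Fin 6) ⊕ κ × Fin 3 :=
        Sum.map (Sum.map (Prod.map e'.symm id) id) (Prod.map e.symm id)
      have hg : ∀ x, coordinate ω₁ ω₂ t y (g x) =
          coordinate ω₁ ω₂ (t ∘ e'.symm) (y ∘ e.symm) x := by
        rintro ((x | x) | x) <;> rfl
      obtain ⟨s, hs, h2⟩ := (SA.indep_fin (coordinate ω₁ ω₂ t y)
        (Fintype.card σ + periodTerm (ω₂ / ω₁) + 2 * Fintype.card κ)).2
        ⟨fun k => g (f k), by
          simp only [hg]
          exact hf⟩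
      refine ⟨s, hs, ?_⟩
      have h3 : ((Fintype.card σ + periodTerm (ω₂ / ω₁) + 2 * Fintype.card κ : ℕ) : ℤ) ≤
        s.card := by exact_mod_cast h2
      push_cast at h3 ⊢
      linarith) κ p hp (hran _ _)
    have h3 : ((Fintype.card σ + periodTerm (ω₂ / ω₁) + 2 * Fintype.card κ : ℕ) : ℤ) ≤
        Module.finrank ℂ (space ω₁ ω₂ t p) := by
      push_cast at h0 ⊢
      linarith
    exact_mod_cast h3
  · intro h ω₁ ω₂ hω s n t p ht hp
    have h0 := (hloc ω₁ ω₂ (Fin s) t Empty Empty.elim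
        ((s + periodTerm (ω₂ / ω₁) : ℕ) : ℤ)).2 (by
      intro κ _ y hy _
      have h1 := h ω₁ ω₂ hω (Fin s) κ t y ht hy
      rw [Fintype.card_fin] at h1
      have h2 : ((s + periodTerm (ω₂ / ω₁) + 2 * Fintype.card κ : ℕ) : ℤ) ≤
        Module.finrank ℂ (space ω₁ ω₂ t y) := by exact_mod_cast h1
      push_cast at h2 ⊢
      linarith) (Fin n) p hp (hran _ _)
    obtain ⟨S, hS, h1⟩ := h0
    rw [Fintype.card_fin] at h1
    refine (SA.indep_fin (coordinate ω₁ ω₂ t p) (s + periodTerm (ω₂ / ω₁) + 2 * n)).1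
      ⟨S, hS, ?_⟩
    have h2 : ((s + periodTerm (ω₂ / ω₁) + 2 * n : ℕ) : ℤ) ≤ S.card := by
      push_cast at h1 ⊢
      linarith
    exact_mod_cast h2

end Pool.Agent.Results.MP_8da9ea_nt.InversesSuffice
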