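import Pool.Agent.N733.TG.M
import Pool.Agent.Results.MP_8da9ea_nt.AlmostAllTranslates

/-!
# The elliptico-toric inequality in bounded degree for almost all tuples of values of multiplicative functions

Let `E : y² = 4 x³ - g₂ x - g₃` be an elliptic curve with rational `g₂`, `g₃` and lattice `Λ`, and let `(z, y)` be any point
of the Lie algebra `ℂⁿ × ℂˢ` of `E^n × G_m^s`. Let `F_1, ..., F_(n+s)` be multiplicative functions of at most polynomial growth
with `F_i(p) ≤ M p` and different values at different large primes (Euler's function, the sum of the divisors), and let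
`A_i ≠ 0`, `B_i` be integers. We translate `(z, y)` by logarithms of the points with the coordinates
`α_i = A_i F_i(m_i) + B_i`: `℘(p_i - z_i) = α_i` for `i = 1, ..., n` and `exp(t_l - y_l) = α_(n+l)` for `l = 1, ..., s`.

The theorem: for all `(n + s)`-tuples `(m_i)` of natural numbers up to `N`, but `N^(n+s) / (log N)^U`, every polynomial relation
of bounded degree over number fields of bounded degree, of any height, between arbitrary constants `w_1, ..., w_q` (for instance
`ω₁, ω₂, η₁, η₂`), the numbers `p_i`, `ζ(p_i)`, `t_l` and the numbers `℘(p_i)`, `℘'(p_i)`, `exp(t_l)` is an identity in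
the numbers `p_i`, `ζ(p_i)`, `t_l`. The values of the functions have large multiplicities, and so this does not follow from the
size of the exceptional set.

The proof uses the count of the exceptional tuples of integers of the starting theorem `AlmostAllTranslates` of this problem
(`Pool.Agent.Y916.Sch.tupP`) and the tool of helper733 (`Pool.Agent.N733.TG`): tuples of such functions avoid sets of tuples
with a power saving.
-/

set_option autoImplicit false

open scoped PeriodPair

namespace Pool.Agent.Results.MP_8da9ea_nt.MultiplicativeValues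

open Pool.Agent.N733.TG (LM lm_totient lm_sigma keep_tuples2)
open Pool.Agent.Results.MP_8da9ea_nt.AlmostAllTranslates (zeta logarithms points FreeOverPoints IsTranslate)

/-- an integer of absolute value at most `T` is an algebraic integer of degree one with conjugates at most `T` -/
lemma aint_int {T : ℝ} {x : ℤ} (hx : |(x : ℝ)| ≤ T) : Pool.Agent.Y916.Sl.AInt 1 T (x : ℂ) := by
  refine ⟨Polynomial.X - Polynomial.C x, Polynomial.monic_X_sub_C x, Polynomial.natDegree_X_sub_C x, by simp, fun z hz => ?_⟩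
  have h1 : z = (x : ℂ) := by
    simpa [sub_eq_zero] using hz
  rw [h1, Complex.norm_intCast]
  exact hx

/-- Let `Λ` be a lattice with rational invariants, `F_1, ..., F_(n+s)` multiplicative functions as above and `A_i ≠ 0`, `B_i`
integers. For all `q`, `δ`, `d` and `U` there is `N₀` such that for all `N ≥ N₀`, all `(z, y)` in `ℂⁿ × ℂˢ` and all complex
`w_1, ..., w_q`, for all but at most `N^(n+s) / (log N)^U` of the tuples `m ∈ [1, N]^(n+s)` all translates of `(z, y)` by
logarithms of the point given by `α_i = A_i F_i(m_i) + B_i` are free over their points and `w`. -/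
theorem result :
    (∀ (Λ : PeriodPair) (a b : ℚ), Λ.g₂ = a → Λ.g₃ = b → ∀ (n s q : ℕ), 1 ≤ n + s → ∀ (δ d : ℕ)
      (F : Fin (n + s) → ℕ → ℕ), (∀ i, LM (F i)) → ∀ A B : Fin (n + s) → ℤ, (∀ i, A i ≠ 0) → ∀ U : ℕ,
      ∃ N₀ : ℕ, ∀ N : ℕ, N₀ ≤ N → ∀ (w : Fin q → ℂ) (z : Fin n → ℂ) (y : Fin s → ℂ),
        ({m : Fin (n + s) → ℕ | (∀ i, 1 ≤ m i ∧ m i ≤ N) ∧ ¬ ∀ (p : Fin n → ℂ) (t : Fin s → ℂ),
          IsTranslate Λ z y (fun i => ((A i * F i (m i) + B i : ℤ) : ℂ)) p t → FreeOverPoints Λ δ d w p t}.ncard : ℝ) ≤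
          (N : ℝ) ^ (n + s) / Real.log N ^ U) ∧
    LM Nat.totient ∧ LM (fun m => ∑ d ∈ m.divisors, d) := by
  refine ⟨fun Λ a b ha hb n s q hns δ d F hF A B hA U => ?_, lm_totient, lm_sigma⟩
  obtain ⟨c, hc, C, hC, h⟩ := Pool.Agent.Y916.Sch.tupP Λ a b ha hb n s q 1 δ d le_rfl
  have hMm : Pool.Agent.Y916.Sl.Mm 1 = 1 := by rw [Pool.Agent.Y916.Sl.Mm_eq]
  rw [hMm, mul_one] at h
  obtain ⟨R, hR⟩ : ∃ R : ℕ, R = 1 + ∑ i, ((A i).natAbs + (B i).natAbs) := ⟨_, rfl⟩
  have hR1 : 1 ≤ R := by rw [hR]; omega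
  obtain ⟨N₀, hN₀⟩ := keep_tuples2 hns hF hc U (C * (R : ℝ) ^ (((n + s : ℕ) : ℝ) - c))
  refine ⟨N₀, fun N hN w z y => ?_⟩
  obtain ⟨φ, hφ⟩ : ∃ φ : (Fin (n + s) → ℕ) → (Fin (n + s) → ℂ), φ = fun v i => ((A i * v i + B i : ℤ) : ℂ) := ⟨_, rfl⟩
  have hinj : Function.Injective φ := by
    intro v v' hv
    funext i
    have h1 : ((A i * v i + B i : ℤ) : ℂ) = ((A i * v' i + B i : ℤ) : ℂ) := by
      have := congrFun hv i
      rw [hφ] at this
      exact this
    have h2 : A i * v i + B i = A i * v' i + B i := by exact_mod_cast h1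
    have h3 : A i * ((v i : ℤ) - v' i) = 0 := by linarith
    rcases mul_eq_zero.1 h3 with h4 | h4
    · exact absurd h4 (hA i)
    · exact_mod_cast sub_eq_zero.1 h4
  have h1 := hN₀ N hN {v | ¬ ∀ (p : Fin n → ℂ) (t : Fin s → ℂ), IsTranslate Λ z y (φ v) p t → FreeOverPoints Λ δ d w p t}
    (fun X hX => ?_)
  · refine le_trans ?_ h1
    have hfin : {m : Fin (n + s) → ℕ | ∀ i, 1 ≤ m i ∧ m i ≤ N}.Finite := by
      apply (Finset.finite_toSet (Fintype.piFinset fun _ : Fin (n + s) => Finset.Icc 1 N)).subset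
      intro m hm
      rw [Finset.mem_coe, Fintype.mem_piFinset]
      exact fun i => Finset.mem_Icc.2 (hm i)
    refine Nat.cast_le.2 (Set.ncard_le_ncard ?_ (hfin.subset fun m hm => hm.1))
    rintro m ⟨hm1, hm2⟩
    refine ⟨hm1, fun hcon => hcon.2 ?_⟩
    rw [hφ]
    exact hm2
  · have hX0 : (0 : ℝ) ≤ X := Nat.cast_nonneg X
    have hR0 : (0 : ℝ) ≤ R := Nat.cast_nonneg R
    obtain ⟨hf, hle⟩ := h w z y (R * X) (Nat.mul_pos hR1 hX)
    have e1 : C * ((R * X : ℕ) : ℝ) ^ (((n + s : ℕ) : ℝ) - c) =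
        C * (R : ℝ) ^ (((n + s : ℕ) : ℝ) - c) * (X : ℝ) ^ (((n + s : ℕ) : ℝ) - c) := by
      rw [Nat.cast_mul, Real.mul_rpow hR0 hX0, mul_assoc]
    rw [← e1]
    refine le_trans (Nat.cast_le.2 ?_) hle
    refine Set.ncard_le_ncard_of_injOn φ ?_ hinj.injOn hf
    rintro v ⟨hv1, hv2⟩
    refine ⟨fun i => ?_, ?_⟩
    · rw [hφ]
      refine aint_int ?_
      have e2 : (((A i).natAbs + (B i).natAbs : ℕ) : ℝ) ≤ R := by
        rw [hR]
        have := Finset.single_le_sum (f := fun i => (A i).natAbs + (B i).natAbs) (fun i _ => Nat.zero_le _) (Finset.mem_univ i)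
        exact_mod_cast this.trans (Nat.le_add_left _ _)
      have e3 : (1 : ℝ) ≤ X := by exact_mod_cast hX
      have e4 : ((v i : ℕ) : ℝ) ≤ X := by exact_mod_cast (hv1 i).2
      have e5 : |((A i * v i + B i : ℤ) : ℝ)| ≤ |((A i : ℤ) : ℝ)| * v i + |((B i : ℤ) : ℝ)| := by
        push_cast
        refine (abs_add_le _ _).trans ?_
        rw [abs_mul, Nat.abs_cast]
      have e6 : (((A i).natAbs + (B i).natAbs : ℕ) : ℝ) = |((A i : ℤ) : ℝ)| + |((B i : ℤ) : ℝ)| := by
        push_cast
        rw [Nat.cast_natAbs, Nat.cast_natAbs, Int.cast_abs, Int.cast_abs]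
      push_cast
      rw [e6] at e2
      have e7 := abs_nonneg ((A i : ℤ) : ℝ)
      have e8 := abs_nonneg ((B i : ℤ) : ℝ)
      push_cast at e5
      nlinarith [mul_le_mul_of_nonneg_left e4 e7, mul_le_mul_of_nonneg_left e3 e8, mul_le_mul_of_nonneg_right e2 hX0]
    · simp only [not_forall, Set.mem_ofPred_eq] at hv2
      obtain ⟨p, t, hu, hF'⟩ := hv2
      exact ⟨p, t, hu.1, hu.2, hF'⟩

end Pool.Agent.Results.MP_8da9ea_nt.MultiplicativeValues
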