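import Pool.Agent.N207.AX.Few
import Pool.Agent.N207.AX.Exp
import Pool.Agent.N603.AX.VAR
import Pool.Agent.TH813.EKPer
import Pool.Agent.N878.AX.LINE
import Pool.Agent.N301.AX.IND

/-!
# The elliptico-toric conjecture at almost all algebraic points of arbitrary analytic families in several variables

Let `Λ_z` be a family of lattices with periods `ω₁(z), ω₂(z)`, analytic functions on a connected open set `U` of
`ℂ ^ X` whose quotient is not constant, let `p_1, …, p_r` be analytic functions on `U` which are independent modulo the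
lattices (no nontrivial combination `∑ n_i p_i(z)` with integral coefficients is in `Λ_z` for all `z`) and let
`t_1, …, t_s` be analytic functions no nontrivial combination of which with integral coefficients is constant. There is
no other condition on these functions; `g₂, g₃`, `℘(p_i)`, `exp(t_k)` need not be algebraic. So the points of `U` are a
parameter space of any dimension for elliptic curves with `r` points and `s` points of the multiplicative group.

For each `z` the elliptico-toric conjecture says that in general the transcendence degree of the field generated by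
`g₂, g₃, ω₁, ω₂, η₁, η₂`, `p_i, ℘(p_i), ζ(p_i)`, `t_k, exp(t_k)` is at least `4 + 2 r + s`, hence at least `3 + 2 r + s`
over `ℚ(π)`. We show that `3 + 2 r + s` fixed numbers among them do not satisfy any relation of growing degree and
height, with coefficients relative to arbitrary complex constants (for instance the powers of `π`), for almost all points
over all number fields of growing degree.
-/

set_option autoImplicit false

open Filter NumberField
open scoped PeriodPair

namespace Pool.Agent.Results.MP_8da9ea_nt.SeveralParameters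

/-- The Weierstrass zeta function `ζ(z) = ∑ (1/(z-l) + 1/l + z/l²)`, the sum over the lattice (the summand of `l = 0` is
`1/z`, since `1/0 = 0` in Lean). -/
noncomputable def ζ (L : PeriodPair) (z : ℂ) : ℂ :=
  ∑' l : L.lattice, (1 / (z - l) + 1 / l + z / l ^ 2)

/-- An analytic family of lattices with points and exponents, depending on several parameters. -/
structure Family {X : Type} [Fintype X] {r s : ℕ} (U : Set (X → ℂ)) (Λ : (X → ℂ) → PeriodPair)
    (p : Fin r → (X → ℂ) → ℂ) (t : Fin s → (X → ℂ) → ℂ) : Prop where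
  isOpen : IsOpen U
  isPreconnected : IsPreconnected U
  nonempty : U.Nonempty
  /-- the lattice depends analytically on `z` -/
  analytic₁ : AnalyticOnNhd ℂ (fun z => (Λ z).ω₁) U
  analytic₂ : AnalyticOnNhd ℂ (fun z => (Λ z).ω₂) U
  /-- the quotient of the periods is not constant -/
  nonconstant : ∀ c : ℂ, ∃ z ∈ U, (Λ z).ω₂ / (Λ z).ω₁ ≠ c
  /-- the functions are analytic and the points of the elliptic curves are not zero -/
  analytic_p : ∀ i, AnalyticOnNhd ℂ (p i) U
  p_notMem : ∀ i, ∀ z ∈ U, p i z ∉ (Λ z).lattice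
  analytic_t : ∀ k, AnalyticOnNhd ℂ (t k) U
  /-- the points are independent modulo torsion -/
  independent_p : ∀ n : Fin r → ℤ, (∀ z ∈ U, ∑ i, (n i : ℂ) * p i z ∈ (Λ z).lattice) → n = 0
  /-- no nontrivial combination with integral coefficients of the `t_k` is constant -/
  independent_t : ∀ (m : Fin s → ℤ) (b : ℂ), (∀ z ∈ U, ∑ k, (m k : ℂ) * t k z = b) → m = 0

/-- The names of the functions `ω₁, ω₂, η₁, g₂, g₃`, `p_i`, `℘(p_i)`, `ζ(p_i)`, `t_k`, `exp(t_k)`. -/
inductive Name (r s : ℕ) : Type
  | omega₁ : Name r s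
  | omega₂ : Name r s
  | eta₁ : Name r s
  | g₂ : Name r s
  | g₃ : Name r s
  | p : Fin r → Name r s
  | wp : Fin r → Name r s
  | zeta : Fin r → Name r s
  | t : Fin s → Name r s
  | expt : Fin s → Name r s

/-- The values of the functions at the point `z`; here `η₁ = 2 ζ(ω₁ / 2)` (and `η₂` is determined by Legendre's
relation `ω₂ η₁ - ω₁ η₂ = ± 2 π i`). -/
noncomputable def value {X : Type} {r s : ℕ} (Λ : (X → ℂ) → PeriodPair) (p : Fin r → (X → ℂ) → ℂ)
    (t : Fin s → (X → ℂ) → ℂ) (z : X → ℂ) : Name r s → ℂ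
  | Name.omega₁ => (Λ z).ω₁
  | Name.omega₂ => (Λ z).ω₂
  | Name.eta₁ => 2 * ζ (Λ z) ((Λ z).ω₁ / 2)
  | Name.g₂ => (Λ z).g₂
  | Name.g₃ => (Λ z).g₃
  | Name.p i => p i z
  | Name.wp i => ℘[Λ z] (p i z)
  | Name.zeta i => ζ (Λ z) (p i z)
  | Name.t k => t k z
  | Name.expt k => Complex.exp (t k z)

/-- `x` is a quotient of two integers of `K` all of whose conjugates are at most `T` in absolute value -/
def Height (K : Type) [Field K] [NumberField K] (T : ℝ) (x : K) : Prop :=
  ∃ a b : 𝓞 K, b ≠ 0 ∧ house (a : K) ≤ T ∧ house (b : K) ≤ T ∧ x = a / b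

/-- the points of norm at most `k` at distance at least `1 / k` from the complement of `U` -/
def Inner {X : Type} [Fintype X] (U : Set (X → ℂ)) (k : ℕ) : Set (X → ℂ) := {z | ‖z‖ ≤ k ∧ Metric.ball z (k : ℝ)⁻¹ ⊆ U}

/-- `S` is covered by `m` hypersurfaces of degree at most `D` -/
def Covered {X : Type} (D m : ℕ) (S : Set (X → ℂ)) : Prop :=
  ∃ Φ : Finset (MvPolynomial X ℂ), Φ.card ≤ m ∧ (∀ R ∈ Φ, R ≠ 0 ∧ R.totalDegree ≤ D) ∧
    ∀ x ∈ S, ∃ R ∈ Φ, MvPolynomial.eval x R = 0

/-- **The exceptional points**: `s` in `K ^ X`, of height at most `T`, in the compact set `Inner U k`, such that some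
nonzero polynomial `R` of partial degrees at most `k`, whose coefficients are combinations `∑ ξ i * c i` with integers
`c i` of `K` all of whose conjugates are at most `T ^ k`, vanishes at the numbers `v s y` -/
def Exceptional {X σ : Type} [Fintype X] (U : Set (X → ℂ)) (v : (X → ℂ) → σ → ℂ) (K : Type) [Field K] [NumberField K]
    (io : K →+* ℂ) (k : ℕ) (ξ : Fin k → ℂ) (T : ℝ) : Set (X → K) :=
  {s | (∀ j, Height K T (s j)) ∧ (fun j => io (s j)) ∈ Inner U k ∧
    ∃ R : MvPolynomial σ ℂ, R ≠ 0 ∧ (∀ y, R.degreeOf y ≤ k) ∧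
    (∀ m, ∃ c : Fin k → 𝓞 K, (∀ i (φ : K →+* ℂ), ‖φ (c i : K)‖ ≤ T ^ (k : ℝ)) ∧
      R.coeff m = ∑ i, ξ i * io (c i : K)) ∧
    MvPolynomial.eval (v fun j => io (s j)) R = 0}

theorem exists_name (X : Type) (r s : ℕ) : ∃ f : Y776.Cv.Nv r s → Name r s, Function.Injective f ∧
    ∀ (Λ : (X → ℂ) → PeriodPair) (p : Fin r → (X → ℂ) → ℂ) (t : Fin s → (X → ℂ) → ℂ) (z : X → ℂ)
      (i : Y776.Cv.Nv r s), value Λ p t z (f i) = N207.AX.yw Λ p t i z := by
  let f : Y776.Cv.Nv r s → Name r s :=
    Sum.elim ![Name.omega₁, Name.omega₂, Name.eta₁, Name.g₂, Name.g₃] (Sum.elim Name.p (Sum.elim Name.zeta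
      (Sum.elim Name.wp (Sum.elim Name.t Name.expt))))
  let g : Name r s → Y776.Cv.Nv r s := fun a => match a with
    | Name.omega₁ => Sum.inl 0
    | Name.omega₂ => Sum.inl 1
    | Name.eta₁ => Sum.inl 2
    | Name.g₂ => Sum.inl 3
    | Name.g₃ => Sum.inl 4
    | Name.p i => Sum.inr (Sum.inl i)
    | Name.zeta i => Sum.inr (Sum.inr (Sum.inl i))
    | Name.wp i => Sum.inr (Sum.inr (Sum.inr (Sum.inl i)))
    | Name.t k => Sum.inr (Sum.inr (Sum.inr (Sum.inr (Sum.inl k))))
    | Name.expt k => Sum.inr (Sum.inr (Sum.inr (Sum.inr (Sum.inr k))))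
  have hg : Function.LeftInverse g f := by
    rintro (a | a | a | a | a | a)
    · fin_cases a <;> rfl
    all_goals rfl
  refine ⟨f, hg.injective, ?_⟩
  rintro Λ p t z (a | a | a | a | a | a)
  · fin_cases a
    · rfl
    · rfl
    · exact (Pool.Agent.TH813.Ell.eta_half (Λ z).ω₁_mem_lattice (Pool.Agent.TH813.Ell.half₁ (Λ z))).symm
    · rfl
    · rfl
  all_goals rfl

/-- **The elliptico-toric conjecture for almost all points of a family.** Let `Λ, p, t` be a family as above.

One can choose `3 + 2 r + s` different functions `e_k` among the `5 + 3 r + 2 s` functions above such that there is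
`ω → ∞` with the following property: for all large `T`, all number fields `K` of degree at most `ω T`, all embeddings
and all complex numbers `ξ i`, `i < ω T`, the points of `K ^ X` which are exceptional for the numbers `e_k` lie on at
most `T ^ (1 / ω T)` hypersurfaces of degree at most `T ^ (1 / ω T)`, and there are at most
`T ^ (1 / ω T) * N ^ (|X| - 1)` of them, `N` being the number of elements of `K` of height at most `T`. -/
theorem result (X : Type) [Fintype X] [DecidableEq X] [Nonempty X] (r s : ℕ) (U : Set (X → ℂ))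
    (Λ : (X → ℂ) → PeriodPair) (p : Fin r → (X → ℂ) → ℂ) (t : Fin s → (X → ℂ) → ℂ) (h : Family U Λ p t) :
    ∃ e : Fin (3 + 2 * r + s) → Name r s, Function.Injective e ∧
      ∃ (ω : ℝ → ℕ) (T₀ : ℝ), Tendsto ω atTop atTop ∧ Monotone ω ∧ ∀ T, T₀ ≤ T → 0 < ω T ∧
        ∀ (K : Type) [Field K] [NumberField K], Module.finrank ℚ K ≤ ω T → ∀ (io : K →+* ℂ) (ξ : Fin (ω T) → ℂ),
          Covered ⌊T ^ ((ω T : ℝ)⁻¹)⌋₊ ⌊T ^ ((ω T : ℝ)⁻¹)⌋₊
            ((fun (s : X → K) i => io (s i)) '' Exceptional U (fun z k => value Λ p t z (e k)) K io (ω T) ξ T) ∧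
          (Exceptional U (fun z k => value Λ p t z (e k)) K io (ω T) ξ T).Finite ∧
          ((Exceptional U (fun z k => value Λ p t z (e k)) K io (ω T) ξ T).ncard : ℝ) ≤
            T ^ ((ω T : ℝ)⁻¹) * ({x : K | Height K T x}.ncard : ℝ) ^ (Fintype.card X - 1) := by
  obtain ⟨e, he, hI⟩ := N603.AX.var (N301.AX.ind N878.AX.line) X r s U Λ p t h.isOpen h.isPreconnected h.nonempty h.analytic₁ h.analytic₂
    h.nonconstant h.analytic_p h.p_notMem h.independent_p h.analytic_t h.independent_t
  obtain ⟨f, hf, hv⟩ := exists_name X r s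
  have h0 : 3 + 2 * r + s = 3 + (s + 2 * r) := by ring
  refine ⟨fun k => f (e (Fin.cast h0 k)), fun a b hab => Fin.cast_injective _ (he (hf hab)), ?_⟩
  have h2 : (fun (k : Fin (3 + 2 * r + s)) (z : X → ℂ) => value Λ p t z (f (e (Fin.cast h0 k)))) =
      fun k => N207.AX.yw Λ p t (e (Fin.cast h0 k)) := by
    funext k z
    exact hv Λ p t z _
  have hI' : N207.AX.Ind U
      (fun (k : Fin (3 + 2 * r + s)) (z : X → ℂ) => value Λ p t z (f (e (Fin.cast h0 k)))) := by
    rw [h2]
    exact hI.comp (g := Fin.cast h0) (Fin.cast_injective _)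
  have han : ∀ k : Fin (3 + 2 * r + s),
      AnalyticOnNhd ℂ (fun z : X → ℂ => value Λ p t z (f (e (Fin.cast h0 k)))) U := by
    intro k
    rw [show (fun z : X → ℂ => value Λ p t z (f (e (Fin.cast h0 k)))) = N207.AX.yw Λ p t (e (Fin.cast h0 k)) from
      congrFun h2 k]
    exact N603.AX.yw_an h.analytic₁ h.analytic₂ h.analytic_p h.p_notMem h.analytic_t _
  refine (N207.AX.few_ind h.isPreconnected h.isOpen h.nonempty han hI').mono fun K _ _ io k ξ T => ?_
  rintro s ⟨h1, h2, R, h3, h4, h5, h6⟩
  exact ⟨h1, h2, R, h3, h4, h5, h6⟩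

end Pool.Agent.Results.MP_8da9ea_nt.SeveralParameters
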